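import Pool.Agent.H75.GG.Targets

/-!
# Summation over the special row and its witness (row LOC of the board `gsg_modules`)
-/

set_option autoImplicit false

namespace Pool.Agent.H38.GG

open Finset Filter Pool.Agent.H6.NB Pool.Agent.H70.OQ Pool.Agent.H75.GS Pool.Agent.H75.GG

/-- Resampling one coordinate. -/
theorem upd_sum {X Z : Type} [Fintype X] [DecidableEq X] [Fintype Z] [DecidableEq Z] (x : X)
    (F : (X → Z) → ℝ) :
    ∑ h : X → Z, ∑ z : Z, F (Function.update h x z) = Fintype.card Z * ∑ h, F h := by
  have h1 : ∑ h : X → Z, ∑ z : Z, F (Function.update h x z) =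
      ∑ p : (X → Z) × Z, F (Function.update p.1 x p.2) := by
    rw [Fintype.sum_prod_type]
  rw [h1]
  let e : (X → Z) × Z ≃ (X → Z) × Z :=
    { toFun := fun p => (Function.update p.1 x p.2, p.1 x)
      invFun := fun p => (Function.update p.1 x p.2, p.1 x)
      left_inv := by
        rintro ⟨h, z⟩
        simp
      right_inv := by
        rintro ⟨h, z⟩
        simp }
  rw [Fintype.sum_equiv e (fun p : (X → Z) × Z => F (Function.update p.1 x p.2))
    (fun p : (X → Z) × Z => F p.1) (fun p => rfl)]
  rw [Fintype.sum_prod_type, Finset.mul_sum]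
  refine Finset.sum_congr rfl fun h _ => ?_
  simp

theorem upd_false {X : Type} [Fintype X] [DecidableEq X] (x : X) (F : (X → Bool) → ℝ) :
    ∑ b : X → Bool, F (Function.update b x false) =
      2 * ∑ b : X → Bool, if b x = false then F b else 0 := by
  have h := upd_sum x (fun b : X → Bool => if b x = false then F b else 0)
  simp only [Function.update_self, Fintype.card_bool, Fintype.sum_bool] at h
  simpa using h

theorem one_row {X Z : Type} [Fintype X] [DecidableEq X] [Fintype Z] [DecidableEq Z] (x : X)
    (g : (X → Z) × (X → Bool) → ℝ) :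
    ∑ p : (X → Z) × (X → Bool), ∑ z : Z, g (Function.update p.1 x z, Function.update p.2 x false) =
      2 * Fintype.card Z * ∑ p : (X → Z) × (X → Bool), if p.2 x = false then g p else 0 := by
  rw [Fintype.sum_prod_type, Fintype.sum_prod_type]
  have h1 : ∀ h : X → Z, ∑ b : X → Bool, ∑ z : Z,
      g (Function.update h x z, Function.update b x false) =
      ∑ z : Z, 2 * ∑ b : X → Bool, if b x = false then g (Function.update h x z, b) else 0 := by
    intro h
    rw [Finset.sum_comm]
    refine Finset.sum_congr rfl fun z _ => ?_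
    exact upd_false x (fun b => g (Function.update h x z, b))
  simp only [h1]
  rw [upd_sum x (fun h => 2 * ∑ b : X → Bool, if b x = false then g (h, b) else 0)]
  rw [← Finset.mul_sum]
  ring

theorem pf_LOC : Pool.Agent.H75.GG.T_LOC := by
  classical
  intro n L R zr ψ hLR
  have e1 : ∀ p : Wn n, ∀ x ∈ L, ∀ z : Ys n 0, bs (jR R zr p) x z = jR R zr (bs p x z) := by
    intro p x hx z
    have hxR : x ∉ R := Finset.disjoint_left.mp hLR hx
    unfold bs jR
    ext1
    · funext y
      by_cases hy : y = x
      · subst hy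
        simp [hxR]
      · simp [Function.update_of_ne hy]
    · funext y
      by_cases hy : y = x
      · subst hy
        simp [hxR]
      · simp [Function.update_of_ne hy]
  have e2 : ∀ p : Wn n, ∀ x ∈ L, (jR R zr p).2 x = p.2 x := by
    intro p x hx
    have hxR : x ∉ R := Finset.disjoint_left.mp hLR hx
    simp [jR, hxR]
  have e3 : ∑ p : Wn n, ∑ x ∈ L, ∑ z : Ys n 0, ψ (bs (jR R zr p) x z) x =
      ∑ x ∈ L, ∑ p : Wn n, ∑ z : Ys n 0, ψ (jR R zr (bs p x z)) x := by
    rw [Finset.sum_comm]
    refine Finset.sum_congr rfl fun x hx => Finset.sum_congr rfl fun p _ =>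
      Finset.sum_congr rfl fun z _ => ?_
    rw [e1 p x hx z]
  have e4 : ∑ p : Wn n, ∑ x ∈ L.filter (fun x => (jR R zr p).2 x = false), ψ (jR R zr p) x =
      ∑ x ∈ L, ∑ p : Wn n, if p.2 x = false then ψ (jR R zr p) x else 0 := by
    rw [Finset.sum_comm]
    refine Finset.sum_congr rfl fun p _ => ?_
    rw [Finset.sum_filter]
    refine Finset.sum_congr rfl fun x hx => ?_
    rw [e2 p x hx]
  rw [e3, e4, Finset.mul_sum]
  refine Finset.sum_congr rfl fun x hx => ?_
  exact one_row x (fun p => ψ (jR R zr p) x)

end Pool.Agent.H38.GG
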