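import Pool.Agent.H75.GG.Targets
import Pool.Agent.H35.NB.EXI

/-!
# One stage: it is rare that a sampler finds an error (row STP of the board `gsg_modules`)
-/

set_option autoImplicit false

namespace Pool.Agent.H38.GG

open Finset Filter Pool.Agent.H6.NB Pool.Agent.H70.OQ Pool.Agent.H75.GS Pool.Agent.H75.GG

theorem imp_le {X : Type} (N0 : Finset X) (P Q : X → Prop) {_ : DecidablePred P}
    {_ : DecidablePred Q}
    (M : ℕ) (hQ : (N0.filter Q).card ≤ M) (h : ∀ x ∈ N0, P x → Q x) : (N0.filter P).card ≤ M := by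
  refine le_trans (Finset.card_le_card ?_) hQ
  intro x hx
  rw [Finset.mem_filter] at hx ⊢
  exact ⟨hx.1, h x hx.1 hx.2⟩

theorem no_le {X : Type} (N0 : Finset X) (P : X → Prop) {_ : DecidablePred P}
    (M : ℕ) (h : ∀ x ∈ N0, ¬ P x) : (N0.filter P).card ≤ M := by
  rw [Finset.filter_eq_empty_iff.mpr fun x hx => h x hx]
  simp

open Classical in
theorem prod_count {W X : Type} [Fintype W] [Fintype X] (Ev : W → X → Prop) (B1 B2 : W → Prop)
    (c : ℕ) (h : ∀ p, ¬ B1 p → ¬ B2 p → (univ.filter fun x => Ev p x).card ≤ c) :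
    (univ.filter fun z : W × X => Ev z.1 z.2).card ≤
      c * Fintype.card W + Fintype.card X * ((univ.filter fun p => B1 p).card +
        (univ.filter fun p => B2 p).card) := by
  have h1 : (univ.filter fun z : W × X => Ev z.1 z.2).card =
      ∑ p : W, (univ.filter fun x => Ev p x).card := by
    simp only [Finset.card_filter]
    rw [Fintype.sum_prod_type]
  have h2 : ∀ p : W, (univ.filter fun x => Ev p x).card ≤
      c + Fintype.card X * ((if B1 p then 1 else 0) + (if B2 p then 1 else 0)) := by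
    intro p
    by_cases hb1 : B1 p
    · have := Finset.card_filter_le (univ : Finset X) (fun x => Ev p x)
      rw [Finset.card_univ] at this
      rw [if_pos hb1]
      calc _ ≤ Fintype.card X := this
        _ ≤ Fintype.card X * (1 + if B2 p then 1 else 0) := Nat.le_mul_of_pos_right _ (by omega)
        _ ≤ _ := Nat.le_add_left _ _
    · by_cases hb2 : B2 p
      · have := Finset.card_filter_le (univ : Finset X) (fun x => Ev p x)
        rw [Finset.card_univ] at this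
        rw [if_neg hb1, if_pos hb2]
        omega
      · exact (h p hb1 hb2).trans (Nat.le_add_right _ _)
  rw [h1]
  calc ∑ p : W, (univ.filter fun x => Ev p x).card
      ≤ ∑ p : W, (c + Fintype.card X * ((if B1 p then 1 else 0) + (if B2 p then 1 else 0))) :=
        Finset.sum_le_sum fun p _ => h2 p
    _ = _ := by
        rw [Finset.sum_add_distrib, ← Finset.mul_sum, Finset.sum_add_distrib, Finset.sum_const,
          Finset.card_univ, smul_eq_mul, Finset.card_filter, Finset.card_filter]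
        ring

theorem wtB_nonneg (hMUP : Pool.Agent.H6.NB.T_MUP) {Ω : Type} [Fintype Ω] {nn qb : Ω → ℕ}
    (κ : Ω → Bool) (P : Blk nn qb) : 0 ≤ WtB κ P :=
  Finset.prod_nonneg fun s _ => Finset.prod_nonneg fun _ _ => (hMUP (κ s) (qb s)).1 _

theorem wtB_sum (hMUP : Pool.Agent.H6.NB.T_MUP) {Ω : Type} [Fintype Ω] [DecidableEq Ω]
    {nn qb : Ω → ℕ} (κ : Ω → Bool) : ∑ P : Blk nn qb, WtB κ P = 1 := by
  classical
  refine Pool.Agent.H35.NB.E.sum_prod_one
    (T := fun s : Ω => Fin (nn s) → VV (qb s) → Bool)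
    (fun s p => ∏ i, mu (κ s) (qb s) (p i)) ?_
  intro s
  have h := Fintype.sum_pow (fun p => mu (κ s) (qb s) p) (nn s)
  rw [(hMUP (κ s) (qb s)).2.1, one_pow] at h
  exact h.symm

/-- the final summation -/
theorem fin_sum {κT PT : Type} [Fintype κT] [Fintype PT] (w : κT → PT → ℝ) (f g1 g2 : κT → PT → ℝ)
    (c W O N : ℝ) (hw : ∀ κ P, 0 ≤ w κ P) (hw1 : ∀ κ, ∑ P, w κ P = 1)
    (hO : (Fintype.card κT : ℝ) = O)
    (hf : ∀ κ P, f κ P ≤ c * W + N * (g1 κ P + g2 κ P))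
    (b : ℝ) (h1 : ∑ κ, ∑ P, w κ P * g1 κ P ≤ b) (h2 : ∑ κ, ∑ P, w κ P * g2 κ P ≤ b)
    (hN : 0 ≤ N) :
    ∑ κ, ∑ P, w κ P * f κ P ≤ c * W * O + N * (b + b) := by
  calc ∑ κ, ∑ P, w κ P * f κ P
      ≤ ∑ κ, ∑ P, w κ P * (c * W + N * (g1 κ P + g2 κ P)) :=
        Finset.sum_le_sum fun κ _ => Finset.sum_le_sum fun P _ =>
          mul_le_mul_of_nonneg_left (hf κ P) (hw κ P)
    _ = c * W * O + N * ((∑ κ, ∑ P, w κ P * g1 κ P) + ∑ κ, ∑ P, w κ P * g2 κ P) := by
        have e1 : ∀ κ P, w κ P * (c * W + N * (g1 κ P + g2 κ P)) =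
            c * W * w κ P + (N * (w κ P * g1 κ P) + N * (w κ P * g2 κ P)) := by
          intro κ P
          ring
        simp only [e1, Finset.sum_add_distrib, ← Finset.mul_sum, hw1]
        rw [Finset.sum_const, Finset.card_univ, nsmul_eq_mul, hO]
        ring
    _ ≤ _ := by
        have := mul_le_mul_of_nonneg_left (add_le_add h1 h2) hN
        linarith

open Classical in
/-- few bad rows for one configuration -/
theorem one_cfg (hSLP : Pool.Agent.H75.GG.T_SLP) (hWRF : Pool.Agent.H75.GS.T_WRF)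
    (hMSK : Pool.Agent.H75.GS.T_MSK) (hORC : Pool.Agent.H75.GG.T_ORC)
    (n a a0 M : ℕ) (h8 : 8 ≤ n) (ha0 : 1 ≤ a0) (ha : a0 < a) (hln : 3 * n + 1 ≤ n ^ 2 ^ a0)
    (hM : M ≤ 2 ^ (n / 16)) (A A1 A2 : List Bool → (List Bool → Bool) → Prop)
    (σ₀ : List Bool → Bool) (hA : LocA A) (hA1 : LocA A1)
    (ι : Type) [Fintype ι] (S : ι → Sampler) (Eo : ι → (List Bool → Bool) → List Bool → Bool)
    (hι : Fintype.card ι ≤ 2 ^ (n / 16))
    (hS : ∀ i, (S i).alg.Short (n ^ 2 ^ a) ∧ (S i).alg.T ^ 2 ≤ 2 ^ (n / 8))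
    (hE : ∀ i, ExtP n (n ^ 2 ^ a) A2 (Eo i)) (q : Wn n) (κ : Om n (2 ^ a) → Bool)
    (P : Blk (fun s : Om n (2 ^ a) => ns s.1) fun s => qs s.1)
    (hB1 : ¬ BadS n a a0 M A A1 σ₀ q κ P) (hB2 : ¬ BadS n a a0 M A A2 σ₀ q κ P) :
    (univ.filter fun x : Xn n => q.2 x = false ∧
      ∃ i, 1 / 2 ^ (n / 4) < (S i).hit (Eo i (wX n a a0 A σ₀ q κ P x))
      {s | s.length < n ^ 2 ^ a0 ∧ ¬ (A1 s (msk (pst n x (q.1 x))
        (wX n a a0 A σ₀ q κ P x)) ↔ A1 s (wX n a a0 A σ₀ q κ P x))}).card ≤ 2 ^ (n / 2 + 4) := by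
  unfold BadS at hB1 hB2
  have hw1 : ∀ w : List Bool, w.length ≤ n ^ 2 ^ a →
      ((univ.filter fun x : Xn n => q.2 x = false).filter fun x =>
        wX n a a0 A σ₀ q κ P x w ≠ wT n a A σ₀ q κ P w).card ≤ M := by
    intro w hw
    by_contra hc
    exact hB1 (Or.inl ⟨w, hw, not_le.mp hc⟩)
  have hs1 : ∀ s : List Bool, s.length < n ^ 2 ^ a →
      ((univ.filter fun x : Xn n => q.2 x = false).filter fun x =>
        ¬ (A1 s (wX n a a0 A σ₀ q κ P x) ↔ A1 s (wT n a A σ₀ q κ P))).card ≤ M := by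
    intro s hs
    by_contra hc
    exact hB1 (Or.inr ⟨s, hs, not_le.mp hc⟩)
  have hs2 : ∀ s : List Bool, s.length < n ^ 2 ^ a →
      ((univ.filter fun x : Xn n => q.2 x = false).filter fun x =>
        ¬ (A2 s (wX n a a0 A σ₀ q κ P x) ↔ A2 s (wT n a A σ₀ q κ P))).card ≤ M := by
    intro s hs
    by_contra hc
    exact hB2 (Or.inr ⟨s, hs, not_le.mp hc⟩)
  have hWor : Wor n a a0 A σ₀ (orc A σ₀) (wT n a A σ₀ q κ P) (wX n a a0 A σ₀ q κ P) q κ P :=
    { n2 := by omega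
      a1 := ha0
      aa := ha
      ln := hln
      loc := hA
      b0 := (hORC A hA σ₀).1
      bT := (hORC A hA _).1
      bx := fun x => (hORC _ ((hMSK A hA).1 _ _) _).1 }
  have hpow : n ^ 2 ^ a0 ≤ n ^ 2 ^ a :=
    Nat.pow_le_pow_right (by omega) (Nat.pow_le_pow_right (by norm_num) ha.le)
  set wt := wT n a A σ₀ q κ P with hwt
  set wx := wX n a a0 A σ₀ q κ P with hwx
  have hfz : ∀ x, q.2 x = false → ∀ w : List Bool, w.length ≤ n ^ 2 ^ a0 →
      msk (pst n x (q.1 x)) (wx x) w = wt w := fun x hx => (hWRF n a a0 A σ₀ _ _ _ q κ P hWor x hx).2.1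
  have key := hSLP (Xn n) ι (univ.filter fun x => q.2 x = false) (fun i => Eo i wt)
    (fun i x => Eo i (wx x)) S (fun x => {s | s.length < n ^ 2 ^ a0 ∧
      ¬ (A1 s (msk (pst n x (q.1 x)) (wx x)) ↔ A1 s (wx x))}) (n ^ 2 ^ a) M (2 ^ (n / 8))
    (1 / 2 ^ (n / 4)) (fun i => ⟨(hS i).1, by exact_mod_cast (hS i).2⟩) ?_ ?_ (by positivity)
  · rw [Finset.filter_filter] at key
    have hk : ((univ.filter fun x : Xn n => q.2 x = false ∧
      ∃ i, 1 / 2 ^ (n / 4) < (S i).hit (Eo i (wx x))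
      {s | s.length < n ^ 2 ^ a0 ∧ ¬ (A1 s (msk (pst n x (q.1 x))
        (wx x)) ↔ A1 s (wx x))}).card : ℝ) * (1 / 2 ^ (n / 4)) ≤
        Fintype.card ι * (2 * M + 8 * 2 ^ (n / 8) * M) := by
      refine le_trans (le_of_eq ?_) key
      congr!
    have h3 : (Fintype.card ι : ℝ) * (2 * M + 8 * 2 ^ (n / 8) * M) ≤
        2 ^ (n / 16) * ((2 + 8 * 2 ^ (n / 8)) * 2 ^ (n / 16)) := by
      have hι' : (Fintype.card ι : ℝ) ≤ 2 ^ (n / 16) := by exact_mod_cast hι
      have hM' : (M : ℝ) ≤ 2 ^ (n / 16) := by exact_mod_cast hM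
      have e : (2 * (M : ℝ) + 8 * 2 ^ (n / 8) * M) = (2 + 8 * 2 ^ (n / 8)) * M := by ring
      rw [e]
      exact mul_le_mul hι' (mul_le_mul_of_nonneg_left hM' (by positivity)) (by positivity)
        (by positivity)
    have h4 : (2 : ℝ) ^ (n / 16) * ((2 + 8 * 2 ^ (n / 8)) * 2 ^ (n / 16)) ≤
        16 * 2 ^ (n / 16 + n / 16 + n / 8) := by
      have e1 : (1 : ℝ) ≤ 2 ^ (n / 8) := one_le_pow₀ (by norm_num)
      rw [pow_add, pow_add]
      have e2 : (0 : ℝ) < 2 ^ (n / 16) := by positivity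
      nlinarith [mul_pos e2 e2]
    have h5 : (2 : ℝ) ^ (n / 16 + n / 16 + n / 8) * 2 ^ (n / 4) ≤ 2 ^ (n / 2) := by
      rw [← pow_add]
      exact pow_le_pow_right₀ (by norm_num) (by omega)
    have h6 : ((univ.filter fun x : Xn n => q.2 x = false ∧
      ∃ i, 1 / 2 ^ (n / 4) < (S i).hit (Eo i (wx x))
      {s | s.length < n ^ 2 ^ a0 ∧ ¬ (A1 s (msk (pst n x (q.1 x))
        (wx x)) ↔ A1 s (wx x))}).card : ℝ) ≤ 2 ^ (n / 2 + 4) := by
      set y : ℝ := ((univ.filter fun x : Xn n => q.2 x = false ∧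
        ∃ i, 1 / 2 ^ (n / 4) < (S i).hit (Eo i (wx x))
        {s | s.length < n ^ 2 ^ a0 ∧ ¬ (A1 s (msk (pst n x (q.1 x))
          (wx x)) ↔ A1 s (wx x))}).card : ℝ)
      have h7 : y * (1 / 2 ^ (n / 4)) ≤ 16 * 2 ^ (n / 16 + n / 16 + n / 8) :=
        hk.trans (h3.trans h4)
      have h8' : (0 : ℝ) < 2 ^ (n / 4) := by positivity
      have h9 : y ≤ 16 * 2 ^ (n / 16 + n / 16 + n / 8) * 2 ^ (n / 4) := by
        rw [mul_one_div, div_le_iff₀ h8'] at h7
        exact h7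
      calc y ≤ 16 * 2 ^ (n / 16 + n / 16 + n / 8) * 2 ^ (n / 4) := h9
        _ = 16 * (2 ^ (n / 16 + n / 16 + n / 8) * 2 ^ (n / 4)) := by ring
        _ ≤ 16 * 2 ^ (n / 2) := mul_le_mul_of_nonneg_left h5 (by norm_num)
        _ = 2 ^ (n / 2 + 4) := by rw [pow_add]; norm_num; ring
    exact_mod_cast h6
  · -- the strings of the extended oracle
    intro i w hw
    rcases hE i w hw with h | ⟨v, hv, h⟩ | ⟨s, hs, Y, h⟩
    · refine no_le _ _ _ fun x hx => ?_
      have hx1 := (Finset.mem_filter.mp hx).2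
      push Not
      refine h _ _ fun v hv => ?_
      have hl : n ≤ n ^ 2 ^ a0 := by omega
      have h1 := hfz x hx1 v (by omega)
      rw [← h1]
      unfold msk
      rw [if_neg]
      intro hvu
      have : v.length = 3 * n + 1 := by
        rw [hvu]
        simp [pst]
        ring
      omega
    · refine imp_le _ _ _ _ (hw1 v hv) (fun x _ hx => ?_)
      rw [h, h] at hx
      exact hx
    · refine imp_le _ _ _ _ (hs2 s hs) (fun x _ hx hiff => hx ?_)
      have h1 : Eo i (wx x) w = true ↔ Eo i wt w = true := by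
        rw [h, h, hiff]
      exact Bool.eq_iff_iff.mpr h1
  · intro s
    by_cases hs : s.length < n ^ 2 ^ a0
    · refine imp_le _ _ _ _ (hs1 s (by omega)) (fun x hx0 hx hiff => hx.2 ?_)
      have hx1 := (Finset.mem_filter.mp hx0).2
      rw [hiff]
      refine hA1 s _ _ fun w hw => hfz x hx1 w ?_
      nlinarith
    · refine no_le _ _ _ fun x _ hx => ?_
      exact hs hx.1

theorem pf_STP (hSNS : Pool.Agent.H75.GG.T_SNS) (hSLP : Pool.Agent.H75.GG.T_SLP)
    (hWRF : Pool.Agent.H75.GS.T_WRF) (hMSK : Pool.Agent.H75.GS.T_MSK)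
    (hORC : Pool.Agent.H75.GG.T_ORC) (hMUP : Pool.Agent.H6.NB.T_MUP) :
    Pool.Agent.H75.GG.T_STP := by
  classical
  intro K n a a0 M h8 ha0 ha hln hPr hM _ A A1 A2 σ₀ R zr hA hA1 hA2 hF hF1 hF2 hR ι _ S Eo hι hS hE
  have b1 := hSNS K n a a0 M h8 ha0 ha hln hPr A A1 σ₀ R zr hA hA1 hF hF1 hR
  have b2 := hSNS K n a a0 M h8 ha0 ha hln hPr A A2 σ₀ R zr hA hA2 hF hF2 hR
  refine (fin_sum (fun κ P => WtB κ P) _ _ _ (2 ^ (n / 2 + 4)) (Fintype.card (Wn n))
    (2 ^ Fintype.card (Om n (2 ^ a))) (2 ^ n) (fun κ P => wtB_nonneg hMUP κ P)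
    (fun κ => by convert wtB_sum hMUP κ) (by simp) ?_ _ b1 b2 (by positivity)).trans ?_
  · intro κ P
    have h1 := prod_count (fun (p : Wn n) (x : Xn n) => (jR R zr p).2 x = false ∧
      ∃ i, 1 / 2 ^ (n / 4) < (S i).hit (Eo i (wX n a a0 A σ₀ (jR R zr p) κ P x))
      {s | s.length < n ^ 2 ^ a0 ∧ ¬ (A1 s (msk (pst n x ((jR R zr p).1 x))
        (wX n a a0 A σ₀ (jR R zr p) κ P x)) ↔
        A1 s (wX n a a0 A σ₀ (jR R zr p) κ P x))})
      (fun p => BadS n a a0 M A A1 σ₀ (jR R zr p) κ P)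
      (fun p => BadS n a a0 M A A2 σ₀ (jR R zr p) κ P) (2 ^ (n / 2 + 4))
      (fun p hp1 hp2 => le_trans (le_of_eq (by congr!)) (one_cfg hSLP hWRF hMSK hORC n a a0 M h8
        ha0 ha hln hM A A1 A2 σ₀ hA hA1 ι S Eo hι hS hE (jR R zr p) κ P hp1 hp2))
    have hX : Fintype.card (Xn n) = 2 ^ n := by simp
    rw [hX] at h1
    have h2 := (Nat.cast_le (α := ℝ)).mpr h1
    push_cast at h2
    refine le_trans (le_of_eq ?_) (h2.trans (le_of_eq ?_))
    · congr!
    · congr!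
  · have hW : (0 : ℝ) < Fintype.card (Wn n) := by
      exact_mod_cast Fintype.card_pos
    have hO : (0 : ℝ) < 2 ^ Fintype.card (Om n (2 ^ a)) := by positivity
    set W : ℝ := (Fintype.card (Wn n) : ℝ)
    set O : ℝ := 2 ^ Fintype.card (Om n (2 ^ a))
    have h3 : (2 : ℝ) ^ n * (2 / 2 ^ (2 * n) * (W * O) + 2 / 2 ^ (2 * n) * (W * O)) ≤
        2 ^ (n / 2 + 4) * (W * O) := by
      have e : (2 : ℝ) ^ n * (2 / 2 ^ (2 * n) * (W * O) + 2 / 2 ^ (2 * n) * (W * O)) =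
          4 / 2 ^ n * (W * O) := by
        rw [two_mul n, pow_add]
        field_simp
        ring
      rw [e]
      refine mul_le_mul_of_nonneg_right ?_ (by positivity)
      have e1 : (1 : ℝ) ≤ 2 ^ n := one_le_pow₀ (by norm_num)
      have e2 : (1 : ℝ) ≤ 2 ^ (n / 2) := one_le_pow₀ (by norm_num)
      calc (4 : ℝ) / 2 ^ n ≤ 4 / 1 := div_le_div_of_nonneg_left (by norm_num) (by norm_num) e1
        _ ≤ 16 * 1 := by norm_num
        _ ≤ 16 * 2 ^ (n / 2) := by linarith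
        _ = 2 ^ (n / 2 + 4) := by rw [pow_add]; norm_num; ring
    have e5 : (2 : ℝ) ^ (n / 2 + 5) * (W * O) = 2 ^ (n / 2 + 4) * W * O + 2 ^ (n / 2 + 4) * (W * O) := by
      rw [show n / 2 + 5 = (n / 2 + 4) + 1 by ring, pow_succ]
      ring
    rw [e5]
    linarith

end Pool.Agent.H38.GG
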